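import Pool.Agent.W795.HE.Stm

set_option autoImplicit false

/-!
Project HE: restart of Leray-Hopf solutions at almost every time, continuity and monotonicity of
the energy defect.
-/

open MeasureTheory Set Filter Topology
open scoped InnerProductSpace

namespace Pool.Agent.W933.HE

open H772R2.NSR (Frame prim_cont)
open H772R2.NSG (LH dft Coef ii_of_int)
open Pool.Agent.W795.TQ (Str FH Univ)
open Pool.Agent.W795.HE

section

variable {H K : Type} [NormedAddCommGroup H] [InnerProductSpace ℝ H] [CompleteSpace H]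
  [NormedAddCommGroup K] [InnerProductSpace ℝ K] [CompleteSpace K]
variable {W : Submodule ℝ (H × K)} {m : H → K} {C ν T : ℝ} {F F1 : ℝ → K} {x0 : H}
  {u : ℝ → H} {z : ℝ → K}

/-- translation of the time -/
lemma mp (s T' : ℝ) : MeasurePreserving (fun t : ℝ => s + t) (volume.restrict (Ioc 0 T'))
    (volume.restrict (Ioc s (s + T'))) := by
  have := (measurePreserving_add_left volume s).restrict_preimage
    (measurableSet_Ioc : MeasurableSet (Ioc s (s + T')))
  rwa [preimage_const_add_Ioc, sub_self, add_sub_cancel_left] at this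

lemma coef (hF : ContinuousOn F (Icc 0 T)) : Coef ν T (fun _ => ν) F := by
  refine ⟨memLp_const ν, Eventually.of_forall fun _ => le_rfl, ?_⟩
  obtain ⟨M, hM⟩ := (isCompact_Icc (a := (0 : ℝ)) (b := T)).exists_bound_of_continuousOn hF
  have h1 : AEStronglyMeasurable F (volume.restrict (Ioc 0 T)) :=
    (hF.mono Ioc_subset_Icc_self).aestronglyMeasurable measurableSet_Ioc
  refine MemLp.of_bound h1 M ?_
  filter_upwards [ae_restrict_mem measurableSet_Ioc] with s hs
  exact hM s (Ioc_subset_Icc_self hs)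

/-- the energy defect between two times -/
lemma dft_sub (Co : Coef ν T (fun _ => ν) F) (L : LH W m T (fun _ => ν) F x0 u z) {a b : ℝ}
    (ha : 0 ≤ a) (hab : a ≤ b) (hb : b ≤ T) :
    dft (fun _ => ν) F x0 u z b - dft (fun _ => ν) F x0 u z a =
      (∫ r in a..b, ⟪F r, z r⟫_ℝ) - (∫ r in a..b, ν * ‖z r‖ ^ 2) - ‖u b‖ ^ 2 / 2 +
        ‖u a‖ ^ 2 / 2 := by
  have i1 := L.Fzi Co
  have i2 := L.dis
  have e1 := intervalIntegral.integral_add_adjacent_intervals
    (ii_of_int i1 le_rfl ha (hab.trans hb)) (ii_of_int i1 ha hab hb)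
  have e2 := intervalIntegral.integral_add_adjacent_intervals
    (ii_of_int i2 le_rfl ha (hab.trans hb)) (ii_of_int i2 ha hab hb)
  unfold dft
  rw [← e1, ← e2]
  ring

end

theorem proof_shift : S_shift := by
  intro H K _ _ _ _ _ _ W m C ν T F F1 x0 u z Fr hν hT hFH L hSE
  have hFc : ContinuousOn F (Icc 0 T) := prim_cont hFH.memLp hFH.prim
  have Co : Coef ν T (fun _ => ν) F := coef hFc
  filter_upwards [L.mem, hSE, ae_restrict_mem measurableSet_Ioc] with s hmem hs1 hs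
  refine ⟨hmem, fun T' hT' hsT => ?_⟩
  have hsub : Ioc s (s + T') ⊆ Ioc 0 T := Ioc_subset_Ioc hs.1.le hsT
  have hle : volume.restrict (Ioc s (s + T')) ≤ volume.restrict (Ioc 0 T) :=
    Measure.restrict_mono hsub le_rfl
  have hmp := mp s T'
  have shiftI : ∀ (f : ℝ → ℝ) (t : ℝ), ∫ r in (0 : ℝ)..t, f (s + r) = ∫ r in s..(s + t), f r := by
    intro f t
    rw [intervalIntegral.integral_comp_add_left (fun r => f r) s, add_zero]
  have z2' : MemLp (fun t => z (s + t)) 2 (volume.restrict (Ioc 0 T')) :=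
    (L.z2.mono_measure hle).comp_measurePreserving hmp
  have hL : LH W m T' (fun _ => ν) (fun t => F (s + t)) (u s) (fun t => u (s + t))
      (fun t => z (s + t)) := by
    refine ⟨by simp, (L.meas.mono_measure hle).comp_measurePreserving hmp,
      (L.mmeas.mono_measure hle).comp_measurePreserving hmp, ?_, z2', ?_, ?_, ?_⟩
    · exact hmp.quasiMeasurePreserving.ae (ae_mono hle L.mem)
    · exact ((memLp_two_iff_integrable_sq_norm z2'.aestronglyMeasurable).1 z2').const_mul ν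
    · intro p hp t ht
      have hG : Integrable (fun r => ⟪F r - ν • z r + m (u r), p.2⟫_ℝ)
          (volume.restrict (Ioc 0 T)) := (L.Gi Fr Co).inner_const p.2
      have w1 := L.weak p hp s ⟨hs.1.le, hs.2⟩
      have w2 := L.weak p hp (s + t) ⟨by linarith [hs.1, ht.1], by linarith [ht.2]⟩
      have e1 := intervalIntegral.integral_add_adjacent_intervals
        (ii_of_int hG le_rfl hs.1.le hs.2)
        (ii_of_int hG hs.1.le (by linarith [ht.1] : s ≤ s + t) (by linarith [ht.2]))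
      have e2 := shiftI (fun r => ⟪F r - ν • z r + m (u r), p.2⟫_ℝ) t
      rw [e2]
      have e3 : ⟪u (s + t) - u s, p.1⟫_ℝ = ⟪u (s + t) - x0, p.1⟫_ℝ - ⟪u s - x0, p.1⟫_ℝ := by
        rw [← inner_sub_left]
        congr 1
        abel
      rw [e3, w1, w2]
      linarith
    · intro t ht
      have h1 := hs1 (s + t) ⟨by linarith [ht.1], by linarith [ht.2]⟩
      have e1 := shiftI (fun r => ν * ‖z r‖ ^ 2) t
      have e2 := shiftI (fun r => ⟪F r, z r⟫_ℝ) t
      rw [e1, e2, intervalIntegral.integral_const_mul]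
      exact h1
  refine ⟨hL, ⟨(hFH.memLp.mono_measure hle).comp_measurePreserving hmp, ?_⟩, ?_, ?_⟩
  · intro a b ha hab hb
    rw [intervalIntegral.integral_comp_add_left (fun r => F1 r) s]
    exact hFH.prim _ _ (by linarith [hs.1]) (by linarith) (by linarith)
  · have e1 := shiftI (fun r => ‖F1 r‖ ^ 2) T'
    rw [e1]
    refine intervalIntegral.integral_mono_interval hs.1.le (by linarith) hsT
      (Eventually.of_forall fun r => by positivity) ?_
    rw [intervalIntegrable_iff_integrableOn_Ioc_of_le hT.le]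
    exact (memLp_two_iff_integrable_sq_norm hFH.memLp.aestronglyMeasurable).1 hFH.memLp
  · intro t ht
    rw [dft_sub Co L hs.1.le (by linarith [ht.1] : s ≤ s + t) (by linarith [ht.2])]
    have e1 := shiftI (fun r => ν * ‖z r‖ ^ 2) t
    have e2 := shiftI (fun r => ⟪F r, z r⟫_ℝ) t
    unfold dft
    simp only
    rw [e1, e2]
    ring

/-- points of a conull set exist arbitrarily close from the left -/
lemma freq {T : ℝ} {p : ℝ → Prop} (h : ∀ᵐ s ∂(volume.restrict (Ioc 0 T)), p s) {t : ℝ}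
    (ht : t ∈ Ioc 0 T) : ∃ᶠ s in 𝓝[<] t, s ∈ Ioo 0 t ∧ p s := by
  intro hcon
  rw [eventually_iff, mem_nhdsLT_iff_exists_Ioo_subset] at hcon
  obtain ⟨l, hl, hsub⟩ := hcon
  have hl' : max l 0 < t := max_lt hl ht.1
  have h1 : ∀ᵐ s ∂(volume.restrict (Ioo (max l 0) t)), p s := by
    refine ae_mono (Measure.restrict_mono ?_ le_rfl) h
    intro s hs
    exact ⟨(le_max_right _ _).trans_lt hs.1, hs.2.le.trans ht.2⟩
  have h2 : ∀ᵐ s ∂(volume.restrict (Ioo (max l 0) t)), s ∈ Ioo (max l 0) t :=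
    ae_restrict_mem measurableSet_Ioo
  have h3 : (volume.restrict (Ioo (max l 0) t)) ≠ 0 := by
    intro h0
    rw [Measure.restrict_eq_zero, Real.volume_Ioo, ENNReal.ofReal_eq_zero] at h0
    linarith
  have : (ae (volume.restrict (Ioo (max l 0) t))).NeBot := ae_neBot.2 h3
  obtain ⟨s, hs1, hs2⟩ := (h1.and h2).exists
  exact hsub ⟨(le_max_left _ _).trans_lt hs2.1, hs2.2⟩
    ⟨⟨(le_max_right _ _).trans_lt hs2.1, hs2.2⟩, hs1⟩

theorem proof_cont : S_cont := by
  intro H K _ _ _ _ _ _ W m C ν T F x0 u z Fr hν hT hFc L hSE hx0 hleft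
  have Co : Coef ν T (fun _ => ν) F := coef hFc
  set D : ℝ → ℝ := dft (fun _ => ν) F x0 u z with hD
  obtain ⟨M, hM⟩ := L.bdd hν.le Co
  have i1 := L.Fzi Co
  have i2 := L.dis
  have primc : ∀ f : ℝ → ℝ, Integrable f (volume.restrict (Ioc 0 T)) →
      ContinuousOn (fun t => ∫ s in (0 : ℝ)..t, f s) (Icc 0 T) := by
    intro f hf
    have hi : IntegrableOn f (uIcc 0 T) volume := by
      rw [uIcc_of_le hT.le, integrableOn_Icc_iff_integrableOn_Ioc]
      exact hf
    have := intervalIntegral.continuousOn_primitive_interval hi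
    rwa [uIcc_of_le hT.le] at this
  have cP := primc _ i1
  have cQ := primc _ i2
  have hD0 : D 0 = 0 := by
    rw [hD]
    unfold dft
    rw [L.init]
    simp
  have hDn : ∀ t ∈ Icc 0 T, 0 ≤ D t := by
    intro t ht
    have := L.energy t ht
    rw [hD]
    unfold dft
    linarith
  -- left continuity
  have hleftD : ∀ t ∈ Ioc 0 T, Tendsto D (𝓝[<] t) (𝓝 (D t)) := by
    intro t ht
    have hle : 𝓝[<] t ≤ 𝓝[Icc 0 T] t := by
      rw [← nhdsWithin_Ico_eq_nhdsLT ht.1]
      exact nhdsWithin_mono _ fun s hs => ⟨hs.1, hs.2.le.trans ht.2⟩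
    have t1 : Tendsto (fun t => ∫ s in (0 : ℝ)..t, ⟪F s, z s⟫_ℝ) (𝓝[<] t)
        (𝓝 (∫ s in (0 : ℝ)..t, ⟪F s, z s⟫_ℝ)) := (cP t (Ioc_subset_Icc_self ht)).mono_left hle
    have t2 : Tendsto (fun t => ∫ s in (0 : ℝ)..t, ν * ‖z s‖ ^ 2) (𝓝[<] t)
        (𝓝 (∫ s in (0 : ℝ)..t, ν * ‖z s‖ ^ 2)) := (cQ t (Ioc_subset_Icc_self ht)).mono_left hle
    have t3 : Tendsto (fun s => ‖u s‖ ^ 2 / 2) (𝓝[<] t) (𝓝 (‖u t‖ ^ 2 / 2)) :=
      ((hleft t ht).norm.pow 2).div_const 2
    exact ((t1.const_add (‖x0‖ ^ 2 / 2)).sub t3).sub t2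
  -- monotone from good times
  have hgood : ∀ᵐ s ∂(volume.restrict (Ioc 0 T)), ∀ t ∈ Icc s T, D s ≤ D t := by
    filter_upwards [hSE, ae_restrict_mem measurableSet_Ioc] with s hs1 hs t ht
    have h1 := hs1 t ht
    have h2 := dft_sub Co L hs.1.le ht.1 ht.2
    rw [intervalIntegral.integral_const_mul] at h2
    rw [hD]
    linarith
  have hmono : MonotoneOn D (Icc 0 T) := by
    intro s hs t ht hst
    rcases hs.1.eq_or_lt with h0 | h0
    · rw [← h0, hD0]
      exact hDn t ht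
    · have hs' : s ∈ Ioc 0 T := ⟨h0, hs.2⟩
      refine le_of_tendsto_of_frequently (hleftD s hs') ?_
      refine (freq hgood hs').mono fun r hr => ?_
      exact hr.2 t ⟨hr.1.2.le.trans hst, ht.2⟩
  refine ⟨?_, hmono⟩
  -- weak continuity
  have hV : ∀ s ∈ Icc 0 T, u s ∈ closure {v : H | ∃ ζ, (v, ζ) ∈ W} := by
    intro s hs
    rcases hs.1.eq_or_lt with h0 | h0
    · rw [← h0, L.init]
      exact hx0
    · refine mem_closure_of_frequently_of_tendsto ?_ (hleft s ⟨h0, hs.2⟩)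
      exact (freq L.mem ⟨h0, hs.2⟩).mono fun r hr => ⟨z r, hr.2⟩
  have hweak : ∀ v ∈ {v : H | ∃ ζ, (v, ζ) ∈ W}, ∀ s ∈ Icc 0 T,
      Tendsto (fun t => ⟪u t - u s, v⟫_ℝ) (𝓝[Icc 0 T] s) (𝓝 0) := by
    rintro v ⟨ζ, hζ⟩ s hs
    have hG : Integrable (fun r => ⟪F r - ν • z r + m (u r), ζ⟫_ℝ)
        (volume.restrict (Ioc 0 T)) := (L.Gi Fr Co).inner_const ζ
    have c1 := primc _ hG s hs
    have c2 : Tendsto (fun t => (∫ r in (0 : ℝ)..t, ⟪F r - ν • z r + m (u r), ζ⟫_ℝ) -
        ∫ r in (0 : ℝ)..s, ⟪F r - ν • z r + m (u r), ζ⟫_ℝ) (𝓝[Icc 0 T] s) (𝓝 0) := by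
      have := Tendsto.sub_const c1 (∫ r in (0 : ℝ)..s, ⟪F r - ν • z r + m (u r), ζ⟫_ℝ)
      rwa [sub_self] at this
    refine c2.congr' ?_
    filter_upwards [self_mem_nhdsWithin] with t ht
    have w1 := L.weak (v, ζ) hζ t ht
    have w2 := L.weak (v, ζ) hζ s hs
    simp only at w1 w2
    rw [← w1, ← w2, ← inner_sub_left]
    congr 1
    abel
  have hM0 : 0 ≤ M := (norm_nonneg _).trans (hM 0 ⟨le_rfl, hT.le⟩)
  have hweak2 : ∀ s ∈ Icc 0 T, Tendsto (fun t => ⟪u t - u s, u s⟫_ℝ) (𝓝[Icc 0 T] s) (𝓝 0) := by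
    intro s hs
    rw [Metric.tendsto_nhds]
    intro ε hε
    obtain ⟨v, hv, hvd⟩ := Metric.mem_closure_iff.1 (hV s hs) (ε / (2 * (2 * M + 1)))
      (by positivity)
    have h1 := Metric.tendsto_nhds.1 (hweak v hv s hs) (ε / 2) (by positivity)
    filter_upwards [h1, self_mem_nhdsWithin] with t ht1 ht2
    rw [Real.dist_eq, sub_zero] at ht1 ⊢
    have e1 : ⟪u t - u s, u s⟫_ℝ = ⟪u t - u s, v⟫_ℝ + ⟪u t - u s, u s - v⟫_ℝ := by
      rw [← inner_add_right]
      congr 1
      abel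
    have e2 : |⟪u t - u s, u s - v⟫_ℝ| ≤ 2 * M * (ε / (2 * (2 * M + 1))) := by
      refine (abs_real_inner_le_norm _ _).trans ?_
      have b1 : ‖u t - u s‖ ≤ 2 * M := by
        have := norm_sub_le (u t) (u s)
        have := hM t ht2
        have := hM s hs
        linarith
      have b2 : ‖u s - v‖ ≤ ε / (2 * (2 * M + 1)) := by
        rw [← dist_eq_norm]
        exact hvd.le
      exact mul_le_mul b1 b2 (norm_nonneg _) (by positivity)
    have e3 : 2 * M * (ε / (2 * (2 * M + 1))) ≤ ε / 2 := by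
      rw [mul_div_assoc', div_le_div_iff₀ (by positivity) (by norm_num)]
      nlinarith
    rw [e1]
    refine (abs_add_le _ _).trans_lt ?_
    linarith
  -- continuity
  intro t ht
  have hunion : Icc 0 T = Icc 0 t ∪ Icc t T := (Icc_union_Icc_eq_Icc ht.1 ht.2).symm
  rw [hunion, continuousWithinAt_union]
  constructor
  · rcases ht.1.eq_or_lt with h0 | h0
    · rw [← h0, Icc_self]
      exact continuousWithinAt_singleton
    · have h1 : ContinuousWithinAt D (Iio t) t := hleftD t ⟨h0, ht.2⟩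
      exact (continuousWithinAt_Iio_iff_Iic.1 h1).mono Icc_subset_Iic_self
  · have hmn : 𝓝[Icc t T] t ≤ 𝓝[Icc 0 T] t := nhdsWithin_mono _ (Icc_subset_Icc_left ht.1)
    have up : Tendsto (fun r => D t + ((∫ s in (0 : ℝ)..r, ⟪F s, z s⟫_ℝ) -
        (∫ s in (0 : ℝ)..t, ⟪F s, z s⟫_ℝ)) - ((∫ s in (0 : ℝ)..r, ν * ‖z s‖ ^ 2) -
        (∫ s in (0 : ℝ)..t, ν * ‖z s‖ ^ 2)) - ⟪u r - u t, u t⟫_ℝ) (𝓝[Icc t T] t) (𝓝 (D t)) := by
      have a1 := (Tendsto.sub_const (cP t ht) (∫ s in (0 : ℝ)..t, ⟪F s, z s⟫_ℝ)).mono_left hmn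
      have a2 := (Tendsto.sub_const (cQ t ht) (∫ s in (0 : ℝ)..t, ν * ‖z s‖ ^ 2)).mono_left hmn
      have a3 := (hweak2 t ht).mono_left hmn
      have a4 := ((a1.const_add (D t)).sub a2).sub a3
      simpa using a4
    refine tendsto_of_tendsto_of_tendsto_of_le_of_le' tendsto_const_nhds up ?_ ?_
    · filter_upwards [self_mem_nhdsWithin] with r hr
      exact hmono ht ⟨ht.1.trans hr.1, hr.2⟩ hr.1
    · filter_upwards [self_mem_nhdsWithin] with r hr
      have e1 := dft_sub Co L ht.1 hr.1 hr.2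
      rw [← hD] at e1
      have e2 := intervalIntegral.integral_add_adjacent_intervals
        (ii_of_int i1 le_rfl ht.1 ht.2) (ii_of_int i1 ht.1 hr.1 hr.2)
      have e3 := intervalIntegral.integral_add_adjacent_intervals
        (ii_of_int i2 le_rfl ht.1 ht.2) (ii_of_int i2 ht.1 hr.1 hr.2)
      have e4 : ‖u r‖ ^ 2 = ‖u t‖ ^ 2 + 2 * ⟪u r - u t, u t⟫_ℝ + ‖u r - u t‖ ^ 2 := by
        have h5 : u r = u t + (u r - u t) := by abel
        have h6 := norm_add_sq_real (u t) (u r - u t)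
        rw [← h5, real_inner_comm] at h6
        linarith
      have h7 : 0 ≤ ‖u r - u t‖ ^ 2 := by positivity
      linarith

end Pool.Agent.W933.HE
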